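import Pool.Agent.U172.FM.Cyclo
import Pool.Agent.R703.FM.Tame

/-!
# Equivariant homomorphisms to `ℤ/p`: ramification
-/

set_option autoImplicit false
set_option linter.unusedSectionVars false

namespace Pool.Agent.U172.FE

open NumberField Pool.Agent.W569.FM Pool.Agent.W569.UF Pool.Agent.W569.UH Pool.Agent.U172.FM
open scoped Pointwise

/-- primes above the same prime number are conjugate -/
lemma conj_all {p : ℕ} (hp : p.Prime) {P P' : Ideal (OO ℚ)} (hP : P.IsMaximal) (hP' : P'.IsMaximal)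
    (hpP : (p : OO ℚ) ∈ P) (hpP' : (p : OO ℚ) ∈ P') : ∃ g : GF ℚ, g • P = P' := by
  obtain ⟨g, hg⟩ := Pool.Agent.W571.FM.exists_smul P P' hP.isPrime hP'.isPrime
    ((Pool.Agent.W571.FM.cm_eq hp hP hpP).trans (Pool.Agent.W571.FM.cm_eq hp hP' hpP').symm)
  refine ⟨g, ?_⟩
  ext x
  rw [Ideal.mem_pointwise_smul_iff_inv_smul_mem]
  exact (hg x).symm

section

variable {p : ℕ} {C : Subgroup (GF ℚ)} (hC : ∀ g : GF ℚ, ∀ c ∈ C, g * c * g⁻¹ ∈ C)

include hC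

/-- an equivariant homomorphism which is unramified at one prime is unramified at the conjugates -/
lemma unr_conj {χ : GF ℚ → ZMod p} {f : C →* Multiplicative (ZMod p)}
    (hf3 : ∀ (b : GF ℚ) (c c' : C), (c' : GF ℚ) = b * c * b⁻¹ → f c' = f c ^ (χ b).val)
    {P P' : Ideal (OO ℚ)} {g : GF ℚ} (hg : g • P = P')
    (h : ∀ τ : C, InInertia P (τ : GF ℚ) → f τ = 1) (τ : C) (hτ : InInertia P' (τ : GF ℚ)) :
    f τ = 1 := by
  rw [← hg, inertia_smul_iff] at hτ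
  have hmem : g⁻¹ * (τ : GF ℚ) * g ∈ C := by
    have := hC g⁻¹ τ τ.2
    rwa [inv_inv] at this
  have h1 := h ⟨_, hmem⟩ hτ
  rw [hf3 g ⟨_, hmem⟩ τ (by push_cast; group), h1, one_pow]

/-- an equivariant homomorphism which is trivial on the inertia at one prime above `p` and unramified
outside `S` is unramified, if its character is not the local one at the members of `S` other
than `p` -/
theorem unr_all (hp : p.Prime) (hCo : IsOpen (C : Set (GF ℚ))) {S : Set ℕ} {P : Ideal (OO ℚ)}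
    (hP : P.IsMaximal) (hpP : (p : OO ℚ) ∈ P) (χ : GF ℚ → ZMod p)
    (hS : ∀ l ∈ S, l.Prime ∧ (l ≠ p → ∃ Q : Ideal (OO ℚ), Q.IsMaximal ∧ (l : OO ℚ) ∈ Q ∧
      ∃ σ : GF ℚ, FrobAt l Q σ ∧ χ σ ≠ (l : ZMod p)))
    (f : C →* Multiplicative (ZMod p)) (hfo : IsOpen (f.ker : Set C))
    (hf1 : ∀ τ : C, (τ : GF ℚ) ∈ outer S → f τ = 1)
    (hf2 : ∀ τ : C, InInertia P (τ : GF ℚ) → f τ = 1)
    (hf3 : ∀ (b : GF ℚ) (c c' : C), (c' : GF ℚ) = b * c * b⁻¹ → f c' = f c ^ (χ b).val)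
    (P' : Ideal (OO ℚ)) (hP' : P'.IsMaximal) (τ : C) (hτ : InInertia P' (τ : GF ℚ)) : f τ = 1 := by
  have : Fact p.Prime := ⟨hp⟩
  by_cases hex : ∃ l ∈ S, (l : OO ℚ) ∈ P'
  · obtain ⟨l, hl, hlP'⟩ := hex
    obtain ⟨hlp, hlS⟩ := hS l hl
    by_cases hlp' : l = p
    · subst hlp'
      obtain ⟨g, hg⟩ := conj_all hp hP hP' hpP hlP'
      exact unr_conj hC hf3 hg hf2 τ hτ
    · obtain ⟨Q, hQ, hlQ, σ, hσ, hχ⟩ := hlS hlp'
      obtain ⟨g, hg⟩ := conj_all hlp hQ hP' hlQ hlP'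
      refine unr_conj hC hf3 hg (fun τ hτ => ?_) τ hτ
      have hCn : C.Normal := ⟨fun c hc g => hC g c hc⟩
      have hPg : IsPGroup p (Multiplicative (ZMod p)) := by
        apply IsPGroup.of_card (n := 1)
        rw [Nat.card_congr Multiplicative.toAdd, Nat.card_zmod, pow_one]
      have h1 := Pool.Agent.R703.FM.tame ℚ hp hlp (Ne.symm hlp') hlp.one_lt.le C hCo _ hPg f hfo Q hQ
        hlQ τ σ hτ hσ
      rw [hf3 σ τ _ (by rw [MulAut.conjNormal_apply])] at h1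
      have h2 := congrArg Multiplicative.toAdd h1
      rw [toAdd_pow, toAdd_pow, nsmul_eq_mul, nsmul_eq_mul, ZMod.natCast_zmod_val, ← sub_eq_zero,
        ← sub_mul] at h2
      rcases mul_eq_zero.1 h2 with h3 | h3
      · exact absurd (sub_eq_zero.1 h3) hχ
      · exact Multiplicative.toAdd.injective h3
  · push Not at hex
    exact hf1 τ ⟨P', hP', hex, hτ⟩

lemma pow_one_of {p : ℕ} (hp : p.Prime) {x : Multiplicative (ZMod p)} (h : x ^ (p - 1) = 1) :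
    x = 1 := by
  have h1 : x ^ p = 1 := by
    apply Multiplicative.toAdd.injective
    rw [toAdd_pow, nsmul_eq_mul, ZMod.natCast_self, zero_mul, toAdd_one]
  have h2 : x ^ p = x ^ (p - 1) * x := by
    rw [← pow_succ, Nat.sub_add_cancel hp.one_lt.le]
  rw [h1, h, one_mul] at h2
  exact h2.symm

/-- **the trivial character**: an invariant unramified homomorphism is trivial -/
theorem no_triv (hp : p.Prime) (hCo : IsOpen (C : Set (GF ℚ)))
    (hcomm : ∀ a b : GF ℚ, a * b * a⁻¹ * b⁻¹ ∈ C) (hexp : ∀ b : GF ℚ, b ^ (p - 1) ∈ C)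
    (f : C →* Multiplicative (ZMod p)) (hfo : IsOpen (f.ker : Set C))
    (hf1 : ∀ P : Ideal (OO ℚ), P.IsMaximal → ∀ τ : C, InInertia P (τ : GF ℚ) → f τ = 1)
    (hf3 : ∀ (b : GF ℚ) (c c' : C), (c' : GF ℚ) = b * c * b⁻¹ → f c' = f c) (x : C) : f x = 1 := by
  classical
  set K : Subgroup (GF ℚ) := f.ker.map C.subtype with hK
  have hmem : ∀ x (hx : x ∈ C), x ∈ K ↔ f ⟨x, hx⟩ = 1 := by
    intro x hx
    constructor
    · rintro ⟨y, hy, hyx⟩
      have : y = ⟨x, hx⟩ := Subtype.ext hyx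
      rw [← this]
      exact hy
    · intro h
      exact ⟨⟨x, hx⟩, h, rfl⟩
  have hKn : K.Normal := by
    refine ⟨fun x hx g => ?_⟩
    obtain ⟨y, hy, rfl⟩ := hx
    refine (hmem _ (hC g _ y.2)).2 ?_
    rw [hf3 g y _ rfl]
    exact hy
  -- commutators
  have hbeta : ∀ a b : GF ℚ, f ⟨a * b * a⁻¹ * b⁻¹, hcomm a b⟩ = 1 := by
    intro a b
    apply pow_one_of hC hp
    have hk : ∀ k : ℕ, f ⟨a * b * a⁻¹ * b⁻¹, hcomm a b⟩ ^ k =
        f ⟨a ^ k * b * (a ^ k)⁻¹ * b⁻¹, hcomm (a ^ k) b⟩ := by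
      intro k
      induction k with
      | zero =>
        have e : (⟨a ^ 0 * b * (a ^ 0)⁻¹ * b⁻¹, hcomm (a ^ 0) b⟩ : C) = 1 := by
          apply Subtype.ext
          show a ^ 0 * b * (a ^ 0)⁻¹ * b⁻¹ = 1
          group
        rw [pow_zero, e, map_one]
      | succ k ih =>
        rw [pow_succ, ih]
        have e : (⟨a ^ (k + 1) * b * (a ^ (k + 1))⁻¹ * b⁻¹, hcomm (a ^ (k + 1)) b⟩ : C) =
            ⟨a * (a ^ k * b * (a ^ k)⁻¹ * b⁻¹) * a⁻¹, hC a _ (hcomm (a ^ k) b)⟩ *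
              ⟨a * b * a⁻¹ * b⁻¹, hcomm a b⟩ := by
          apply Subtype.ext
          show a ^ (k + 1) * b * (a ^ (k + 1))⁻¹ * b⁻¹ =
            a * (a ^ k * b * (a ^ k)⁻¹ * b⁻¹) * a⁻¹ * (a * b * a⁻¹ * b⁻¹)
          rw [pow_succ']
          group
        rw [e, map_mul]
        congr 1
        exact (hf3 a ⟨_, hcomm (a ^ k) b⟩ _ rfl).symm
    rw [hk]
    set c : C := ⟨a ^ (p - 1), hexp a⟩ with hc
    have e : (⟨a ^ (p - 1) * b * (a ^ (p - 1))⁻¹ * b⁻¹, hcomm (a ^ (p - 1)) b⟩ : C) =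
        c * ⟨b * (c⁻¹ : C) * b⁻¹, hC b _ (c⁻¹).2⟩ := by
      apply Subtype.ext
      show a ^ (p - 1) * b * (a ^ (p - 1))⁻¹ * b⁻¹ = a ^ (p - 1) * (b * (a ^ (p - 1))⁻¹ * b⁻¹)
      group
    rw [e, map_mul, hf3 b c⁻¹ ⟨b * (c⁻¹ : C) * b⁻¹, hC b _ (c⁻¹).2⟩ rfl, map_inv, mul_inv_cancel]
  have hcommK : ∀ a b : GF ℚ, Commute (QuotientGroup.mk' K a) (QuotientGroup.mk' K b) := by
    intro a b
    show QuotientGroup.mk' K a * QuotientGroup.mk' K b = QuotientGroup.mk' K b * QuotientGroup.mk' K a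
    rw [← map_mul, ← map_mul]
    refine QuotientGroup.eq.2 ?_
    have h1 : b⁻¹ * a⁻¹ * b * a ∈ K := by
      have h2 := (hmem _ (hcomm b⁻¹ a⁻¹)).2 (hbeta b⁻¹ a⁻¹)
      rwa [inv_inv, inv_inv] at h2
    have e : (a * b)⁻¹ * (b * a) = b⁻¹ * a⁻¹ * b * a := by group
    rw [e]
    exact h1
  -- the extension
  have hmul : ∀ g h : GF ℚ, f ⟨(g * h) ^ (p - 1), hexp (g * h)⟩ =
      f ⟨g ^ (p - 1), hexp g⟩ * f ⟨h ^ (p - 1), hexp h⟩ := by
    intro g h
    have h1 : QuotientGroup.mk' K ((g * h) ^ (p - 1)) = QuotientGroup.mk' K (g ^ (p - 1) * h ^ (p - 1)) := by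
      rw [map_pow, map_mul, (hcommK g h).mul_pow, map_mul, map_pow, map_pow]
    have h2 := QuotientGroup.eq.1 h1.symm
    have h3 := (hmem _ (C.mul_mem (C.inv_mem (C.mul_mem (hexp g) (hexp h))) (hexp (g * h)))).1 h2
    have e : (⟨(g ^ (p - 1) * h ^ (p - 1))⁻¹ * (g * h) ^ (p - 1),
        C.mul_mem (C.inv_mem (C.mul_mem (hexp g) (hexp h))) (hexp (g * h))⟩ : C) =
        (⟨g ^ (p - 1), hexp g⟩ * ⟨h ^ (p - 1), hexp h⟩)⁻¹ * ⟨(g * h) ^ (p - 1), hexp (g * h)⟩ := rfl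
    rw [e, map_mul, map_inv, inv_mul_eq_one, map_mul] at h3
    exact h3.symm
  let F : GF ℚ →* Multiplicative (ZMod p) := MonoidHom.mk' (fun g => f ⟨g ^ (p - 1), hexp g⟩) hmul
  have hF : ∀ g, F g = f ⟨g ^ (p - 1), hexp g⟩ := fun _ => rfl
  have hFC : ∀ c : C, F c = f c ^ (p - 1) := by
    intro c
    rw [hF, ← map_pow]
    rfl
  have hFo : IsOpen (F.ker : Set (GF ℚ)) := by
    have hKo : IsOpen (K : Set (GF ℚ)) := hCo.isOpenEmbedding_subtypeVal.isOpenMap _ hfo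
    refine Subgroup.isOpen_mono (H₁ := K) (fun x hx => ?_) hKo
    obtain ⟨y, hy, rfl⟩ := hx
    rw [MonoidHom.mem_ker]
    show F (y : GF ℚ) = 1
    rw [hFC, (MonoidHom.mem_ker).1 hy, one_pow]
  have h1 := Pool.Agent.W215.FM.main _ F hFo (fun P' hP' τ hτ => by
    rw [hF]
    refine hf1 P' hP' _ ?_
    have : ∀ k : ℕ, InInertia P' (τ ^ k) := by
      intro k
      induction k with
      | zero =>
        intro x
        rw [pow_zero, one_smul, sub_self]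
        exact P'.zero_mem
      | succ k ih =>
        intro x
        have h1 := ih (τ • x)
        have h2 := hτ x
        have h3 := P'.add_mem h1 h2
        rw [smul_smul, ← pow_succ, sub_add_sub_cancel] at h3
        exact h3
    exact this _) x
  rw [hFC] at h1
  exact pow_one_of hC hp h1

end

end Pool.Agent.U172.FE
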