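import Pool.Agent.U172.FE.Dense
import Pool.Agent.U172.FE.Arith

/-!
# The general theorem, topological form
-/

set_option autoImplicit false
set_option linter.unusedSectionVars false

namespace Pool.Agent.U172.FE

open IsLocalRing Matrix Pool.Agent.U172.FM

section conj

variable {A : Type*} [CommRing A] [IsLocalRing A] {n : ℕ} {Γ : Type*} [Group Γ]

/-- the conjugate representation -/
def cj (M : GL (Fin n) A) (ρ : Γ →* GL (Fin n) A) : Γ →* GL (Fin n) A :=
  (MulAut.conj M).toMonoidHom.comp ρ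

lemma cj_apply (M : GL (Fin n) A) (ρ : Γ →* GL (Fin n) A) (g : Γ) : cj M ρ g = M * ρ g * M⁻¹ := rfl

lemma inI_conj {I : Ideal A} (M : GL (Fin n) A) {Z : Matrix (Fin n) (Fin n) A}
    (h : InI I ((M : Matrix (Fin n) (Fin n) A) * Z * ((M⁻¹ : GL (Fin n) A) : Matrix (Fin n) (Fin n) A))) :
    InI I Z := by
  have h1 := h.mulL ((M⁻¹ : GL (Fin n) A) : Matrix (Fin n) (Fin n) A)
  have h2 : InI (I * ⊤) (((M⁻¹ : GL (Fin n) A) : Matrix (Fin n) (Fin n) A) *
      ((M : Matrix (Fin n) (Fin n) A) * Z * ((M⁻¹ : GL (Fin n) A) : Matrix (Fin n) (Fin n) A)) *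
      (M : Matrix (Fin n) (Fin n) A)) := h1.mul fun _ _ => Submodule.mem_top
  have e1 : ((M⁻¹ : GL (Fin n) A) : Matrix (Fin n) (Fin n) A) * (M : Matrix (Fin n) (Fin n) A) = 1 := by
    rw [← Units.val_mul, inv_mul_cancel, Units.val_one]
  have e : ((M⁻¹ : GL (Fin n) A) : Matrix (Fin n) (Fin n) A) *
      ((M : Matrix (Fin n) (Fin n) A) * Z * ((M⁻¹ : GL (Fin n) A) : Matrix (Fin n) (Fin n) A)) *
      (M : Matrix (Fin n) (Fin n) A) = Z := by
    calc _ = (((M⁻¹ : GL (Fin n) A) : Matrix (Fin n) (Fin n) A) * (M : Matrix (Fin n) (Fin n) A)) * Z *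
        (((M⁻¹ : GL (Fin n) A) : Matrix (Fin n) (Fin n) A) * (M : Matrix (Fin n) (Fin n) A)) := by
          simp only [mul_assoc]
      _ = Z := by rw [e1, one_mul, mul_one]
  rw [e, Ideal.mul_top] at h2
  exact h2

lemma cong_cj (M : GL (Fin n) A) (ρ : Γ →* GL (Fin n) A) (m : ℕ) : cong (cj M ρ) m = cong ρ m := by
  ext g
  have h : cong (cj M ρ) m = ((GeneralLinearGroup.map (n := Fin n)
      (Ideal.Quotient.mk (maximalIdeal A ^ m))).comp (cj M ρ)).ker := rfl
  have h' : cong ρ m = ((GeneralLinearGroup.map (n := Fin n)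
      (Ideal.Quotient.mk (maximalIdeal A ^ m))).comp ρ).ker := rfl
  rw [h, h', MonoidHom.mem_ker, MonoidHom.mem_ker, MonoidHom.comp_apply, MonoidHom.comp_apply,
    cj_apply, map_mul, map_mul, map_inv, mul_inv_eq_one, mul_eq_left]

end conj

section main

variable {G : Type*} [Group G] [TopologicalSpace G] [IsTopologicalGroup G] [CompactSpace G]
variable {A : Type*} [CommRing A] [IsLocalRing A] [TopologicalSpace A] {n : ℕ}

/-- the general local-global principle, eigenspace version -/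
theorem lg {p : ℕ} [hp : Fact p.Prime] {R : Set G} {B C X : Subgroup G} (hCB : C ≤ B)
    (hCo : IsOpen (C : Set G)) (hCn : ∀ b ∈ B, ∀ c ∈ C, b * c * b⁻¹ ∈ C)
    (hcomm : ∀ a ∈ B, ∀ b ∈ B, a * b * a⁻¹ * b⁻¹ ∈ C) (hexp : ∀ b ∈ B, b ^ (p - 1) ∈ C)
    (hA : IsAdic (maximalIdeal A)) (hpA : (p : A) ∈ maximalIdeal A) {ρ : B →* GL (Fin n) A}
    (hρ : Continuous ρ) {ψ : Fin n → B →* (ZMod p)ˣ} {M : GL (Fin n) A} (hT : Tri p ψ (cj M ρ))
    (hψ : ∀ a, ∀ c : B, (c : G) ∈ C → ψ a c = 1)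
    (hram : ∀ g : B, (g : G) ∈ R → ρ g = 1) (hX : ∀ b ∈ B, ∃ x ∈ X, x⁻¹ * b ∈ C)
    (hdet : ∀ a c : Fin n, ∀ f : C →* Multiplicative (ZMod p), IsOpen (f.ker : Set C) →
      (∀ τ : C, (τ : G) ∈ R → f τ = 1) → (∀ τ : C, (τ : G) ∈ X → f τ = 1) →
      (∀ (b : B) (x x' : C), (x' : G) = b * x * (b : G)⁻¹ →
        f x' = f x ^ (((ψ a * (ψ c)⁻¹) b : (ZMod p)ˣ) : ZMod p).val) → ∀ x, f x = 1) :
    LG ρ (X.subgroupOf B) := by
  classical
  have hBo : IsOpen (B : Set G) := Subgroup.isOpen_mono hCB hCo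
  have hBc : CompactSpace B := isCompact_iff_compactSpace.1
    (Subgroup.isClosed_of_isOpen _ hBo).isCompact
  have hCn' : (C.subgroupOf B).Normal := ⟨fun x hx g => by
    rw [Subgroup.mem_subgroupOf] at hx ⊢
    push_cast
    exact hCn _ g.2 _ hx⟩
  refine LG.of_dense fun m g => ?_
  rw [← cong_cj M ρ m]
  refine denseEig hpA hT (C.subgroupOf B) (X.subgroupOf B) (fun a c hc => hψ a c hc)
    (fun a b => ?_) (fun a => ?_) (fun b => ?_) (fun m => ?_) (fun a c f hf1 hf2 hf3 => ?_) m g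
  · rw [Subgroup.mem_subgroupOf]
    push_cast
    exact hcomm _ a.2 _ b.2
  · rw [Subgroup.mem_subgroupOf]
    push_cast
    exact hexp _ a.2
  · obtain ⟨x, hx, hxb⟩ := hX b b.2
    have hxB : x ∈ B := by
      have e : x = (b : G) * (x⁻¹ * (b : G))⁻¹ := by group
      rw [e]
      exact B.mul_mem b.2 (B.inv_mem (hCB hxb))
    exact ⟨⟨x, hxB⟩, hx, hxb⟩
  · rw [cong_cj]
    exact finIdx_of_open (cong_open hA hρ m)
  · -- the translation
    obtain ⟨m, hm⟩ := hf1
    set e : C →* C.subgroupOf B := (Subgroup.subgroupOfEquivOfLe hCB).symm.toMonoidHom with he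
    have hee : ∀ x : C, (((e x : C.subgroupOf B) : B) : G) = x := fun x => rfl
    have hes : ∀ y : C.subgroupOf B, e ⟨(y : B), y.2⟩ = y := fun y => rfl
    have hkey := hdet a c (f.comp e) ?_ (fun τ hτ => ?_) (fun τ hτ => ?_) (fun b x x' hx => ?_)
    · intro y
      have h1 := hkey ⟨(y : B), y.2⟩
      rwa [MonoidHom.comp_apply, hes] at h1
    · -- open kernel
      have hKo : IsOpen (((cong ρ m).map B.subtype : Subgroup G) : Set G) :=
        hBo.isOpenEmbedding_subtypeVal.isOpenMap _ (cong_open hA hρ m)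
      refine Subgroup.isOpen_mono (H₁ := ((cong ρ m).map B.subtype).subgroupOf C) (fun x hx => ?_)
        (hKo.preimage continuous_subtype_val)
      rw [Subgroup.mem_subgroupOf] at hx
      obtain ⟨y, hy, hyx⟩ := hx
      rw [MonoidHom.mem_ker, MonoidHom.comp_apply]
      refine hm _ ?_
      have e1 : ((e x : C.subgroupOf B) : B) = y := Subtype.ext (by rw [hee]; exact hyx.symm)
      rw [e1, cong_cj]
      exact hy
    · rw [MonoidHom.comp_apply]
      refine hm _ ?_
      rw [cong_cj, mem_cong, hram _ hτ, Units.val_one, sub_self]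
      exact InI.zero
    · rw [MonoidHom.comp_apply]
      exact hf2 _ hτ
    · rw [MonoidHom.comp_apply, MonoidHom.comp_apply]
      have h1 := hf3 b (e x)
      have e1 : MulAut.conjNormal b (e x) = e x' := by
        apply Subtype.ext
        apply Subtype.ext
        rw [MulAut.conjNormal_apply]
        exact hx.symm
      rw [e1] at h1
      exact h1

end main

end Pool.Agent.U172.FE
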