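import Pool.Agent.U172.FM.Cyc
import Pool.Agent.U172.FM.Loc

/-!
# Homomorphisms of a normal `p`-subgroup which are eigenvectors
-/

set_option autoImplicit false
set_option linter.unusedSectionVars false

namespace Pool.Agent.U172.FE

open Pool.Agent.U172.FM

/-- If a subgroup `Y` of a finite group `Q` does not contain the normal `p`-subgroup `P`, where `Q/P`
is commutative of exponent dividing `p - 1` and `Q = Y P`, then some nonzero homomorphism from
`P` to `ℤ/p` is trivial on `Y` and an eigenvector for the conjugation by `Q`. -/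
theorem eigHom {Q : Type*} [Group Q] [Finite Q] {p : ℕ} [hp : Fact p.Prime] (P : Subgroup Q)
    [hPn : P.Normal] (hP : IsPGroup p P) (hcomm : ∀ a b : Q, a * b * a⁻¹ * b⁻¹ ∈ P)
    (hexp : ∀ a : Q, a ^ (p - 1) ∈ P) (Y : Subgroup Q) (hY : ∀ q : Q, ∃ y ∈ Y, y⁻¹ * q ∈ P)
    (hne : ¬ P ≤ Y) :
    ∃ (φ : P → ZMod p) (χ : Q → ZMod p), (∀ x y, φ (x * y) = φ x + φ y) ∧ (∃ x, φ x ≠ 0) ∧
      (∀ x : P, (x : Q) ∈ Y → φ x = 0) ∧ ∀ (q : Q) (x : P), φ (MulAut.conjNormal q x) = χ q * φ x := by
  classical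
  -- the space of homomorphisms
  let V : Submodule (ZMod p) (P → ZMod p) :=
    { carrier := {φ | (∀ x y, φ (x * y) = φ x + φ y) ∧ ∀ x : P, (x : Q) ∈ Y → φ x = 0}
      add_mem' := by
        rintro φ φ' ⟨h1, h2⟩ ⟨h3, h4⟩
        refine ⟨fun x y => ?_, fun x hx => ?_⟩
        · simp only [Pi.add_apply, h1, h3]; ring
        · simp only [Pi.add_apply, h2 x hx, h4 x hx, add_zero]
      zero_mem' := ⟨fun x y => by simp, fun x hx => rfl⟩
      smul_mem' := by
        rintro c φ ⟨h1, h2⟩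
        refine ⟨fun x y => ?_, fun x hx => ?_⟩
        · simp only [Pi.smul_apply, h1, smul_eq_mul]; ring
        · simp only [Pi.smul_apply, h2 x hx, smul_zero] }
  have hV1 : ∀ φ ∈ V, ∀ x : P, φ x⁻¹ = - φ x := by
    intro φ hφ x
    have h0 : φ 1 = 0 := by
      have := hφ.1 1 1
      rw [mul_one] at this
      exact left_eq_add.1 this
    have := hφ.1 x x⁻¹
    rw [mul_inv_cancel, h0] at this
    exact (neg_eq_of_add_eq_zero_right this.symm).symm
  -- invariance under `P`
  have hVP : ∀ φ ∈ V, ∀ q ∈ P, ∀ x : P, φ (MulAut.conjNormal q x) = φ x := by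
    intro φ hφ q hq x
    have e : MulAut.conjNormal q x = (⟨q, hq⟩ : P) * x * (⟨q, hq⟩ : P)⁻¹ := by
      apply Subtype.ext
      rw [MulAut.conjNormal_apply]
      rfl
    rw [e, hφ.1, hφ.1, hV1 φ hφ]
    ring
  -- the operators
  let T : Q → Module.End (ZMod p) (P → ZMod p) := fun q =>
    { toFun := fun φ x => φ (MulAut.conjNormal q⁻¹ x)
      map_add' := fun _ _ => rfl
      map_smul' := fun _ _ => rfl }
  have hT : ∀ q φ x, T q φ x = φ (MulAut.conjNormal q⁻¹ x) := fun _ _ _ => rfl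
  have hTV : ∀ q, ∀ φ ∈ V, T q φ ∈ V := by
    intro q φ hφ
    refine ⟨fun x y => ?_, fun x hx => ?_⟩
    · rw [hT, hT, hT, map_mul, hφ.1]
    · rw [hT]
      obtain ⟨y, hy, hyq⟩ := hY q
      -- `q = y c`
      have e : MulAut.conjNormal q⁻¹ x = MulAut.conjNormal (y⁻¹ * q)⁻¹ (MulAut.conjNormal y⁻¹ x) := by
        rw [← MulAut.mul_apply, ← map_mul]
        congr 1
        group
      rw [e, hVP φ hφ _ (P.inv_mem hyq)]
      refine hφ.2 _ ?_
      rw [MulAut.conjNormal_apply, inv_inv]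
      exact Y.mul_mem (Y.mul_mem (Y.inv_mem hy) hx) hy
  have hTT : ∀ q r, ∀ φ, T q (T r φ) = T (q * r) φ := by
    intro q r φ
    funext x
    rw [hT, hT, hT, ← MulAut.mul_apply, ← map_mul, ← _root_.mul_inv_rev]
  -- elements of `P` act trivially
  have hTP : ∀ q ∈ P, ∀ φ ∈ V, T q φ = φ := by
    intro q hq φ hφ
    funext x
    rw [hT, hVP φ hφ _ (P.inv_mem hq)]
  let f : Q → Module.End (ZMod p) V := fun q => (T q).restrict (hTV q)
  have hf : ∀ q (v : V), ((f q v : V) : P → ZMod p) = T q v := fun _ _ => rfl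
  have hff : ∀ q r (v : V), f q (f r v) = f (q * r) v := fun q r v => Subtype.ext (hTT q r v)
  have hfP : ∀ q ∈ P, ∀ v : V, f q v = v := fun q hq v => Subtype.ext (hTP q hq v v.2)
  have hfpow : ∀ q (k : ℕ) (v : V), ((f q) ^ k) v = f (q ^ k) v := by
    intro q k
    induction k with
    | zero => intro v; rw [pow_zero, pow_zero, hfP 1 P.one_mem]; rfl
    | succ k ih => intro v; rw [pow_succ, Module.End.mul_apply, ih, hff, ← pow_succ]
  -- a nonzero element
  obtain ⟨f₀, hf1, y, hf2⟩ := exists_hom hP (Q := Y.subgroupOf P) (fun h => hne fun z hz => by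
    have : (⟨z, hz⟩ : P) ∈ Y.subgroupOf P := by rw [h]; trivial
    exact this)
  have hφ₀ : (fun x : P => Multiplicative.toAdd (f₀ x)) ∈ V := by
    refine ⟨fun x y => ?_, fun x hx => ?_⟩
    · show Multiplicative.toAdd (f₀ (x * y)) = Multiplicative.toAdd (f₀ x) + Multiplicative.toAdd (f₀ y)
      rw [map_mul, toAdd_mul]
    · have := hf1 x hx
      show Multiplicative.toAdd (f₀ x) = 0
      rw [this, toAdd_one]
  have htop : (⊤ : Submodule (ZMod p) V) ≠ ⊥ := by
    intro h
    apply hf2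
    have h1 : (⟨_, hφ₀⟩ : V) ∈ (⊤ : Submodule (ZMod p) V) := trivial
    rw [h, Submodule.mem_bot] at h1
    have h2 := congrFun (congrArg Subtype.val h1) y
    exact Multiplicative.toAdd.injective h2
  obtain ⟨v, -, hv0, hv⟩ := common f
    (fun q => ⟨Polynomial.X ^ p - Polynomial.X,
      FiniteField.X_pow_card_sub_X_ne_zero (ZMod p) hp.out.one_lt, by
        have h1 := Polynomial.splits_X_pow_nat_card_sub_X (K := ZMod p)
        rwa [Nat.card_zmod] at h1, by
        rw [map_sub, map_pow, Polynomial.aeval_X, sub_eq_zero]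
        refine LinearMap.ext fun x => ?_
        rw [hfpow]
        have e : q ^ p = q * q ^ (p - 1) := by
          rw [← pow_succ', Nat.sub_add_cancel hp.out.one_lt.le]
        rw [e, ← hff, hfP _ (hexp q)]⟩)
    (fun q r v => by
      rw [hff, hff]
      have e : q * r = (q * r * q⁻¹ * r⁻¹) * (r * q) := by group
      rw [e, ← hff, hfP _ (hcomm q r)]) _ ⊤ le_rfl htop (fun _ _ _ => trivial)
  choose c hc using hv
  refine ⟨v, fun q => c q⁻¹, v.2.1, ?_, v.2.2, fun q x => ?_⟩
  · by_contra hcon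
    push Not at hcon
    exact hv0 (Subtype.ext (funext hcon))
  · have h1 := congrFun (congrArg Subtype.val (hc q⁻¹)) x
    have h2 : T q⁻¹ v x = (v : P → ZMod p) (MulAut.conjNormal q x) := by rw [hT, inv_inv]
    rw [← h2]
    exact h1

end Pool.Agent.U172.FE
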