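import Pool.Agent.U172.FE.Kill
import Pool.Agent.U172.FE.Eig
import Pool.Agent.U172.FM.Gen2

/-!
# Density of the image of a subgroup, eigenspace by eigenspace
-/

set_option autoImplicit false
set_option linter.unusedSectionVars false

namespace Pool.Agent.U172.FE

open IsLocalRing Matrix Pool.Agent.U172.FM

variable {A : Type*} [CommRing A] [IsLocalRing A] {n : ℕ} {p : ℕ} [hp : Fact p.Prime]
variable {Γ : Type*} [Group Γ]

/-- **density**: if `X` detects the equivariant homomorphisms from `C` to `ℤ/p` whose characters are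
quotients of residual characters, its image is dense -/
theorem denseEig (hpA : (p : A) ∈ maximalIdeal A) {ψ : Fin n → Γ →* (ZMod p)ˣ}
    {ρ : Γ →* GL (Fin n) A} (hT : Tri p ψ ρ) (C X : Subgroup Γ) [C.Normal]
    (hψ : ∀ a, ∀ c ∈ C, ψ a c = 1) (hcomm : ∀ a b : Γ, a * b * a⁻¹ * b⁻¹ ∈ C)
    (hexp : ∀ a : Γ, a ^ (p - 1) ∈ C) (hX : ∀ g : Γ, ∃ x ∈ X, x⁻¹ * g ∈ C)
    (hfin : ∀ m, (cong ρ m).FiniteIndex)
    (hdet : ∀ a c : Fin n, ∀ f : C →* Multiplicative (ZMod p),
      (∃ m, ∀ x : C, (x : Γ) ∈ cong ρ m → f x = 1) → (∀ x : C, (x : Γ) ∈ X → f x = 1) →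
      (∀ (g : Γ) (x : C), f (MulAut.conjNormal g x) =
        f x ^ ((ψ a g * (ψ c g)⁻¹ : (ZMod p)ˣ) : ZMod p).val) → ∀ x, f x = 1)
    (m : ℕ) (g : Γ) : ∃ δ ∈ X, δ⁻¹ * g ∈ cong ρ m := by
  classical
  have hNf := hfin m
  set N : Subgroup Γ := cong ρ m with hN
  have hQfin : Finite (Γ ⧸ N) := Subgroup.finite_quotient_of_finiteIndex
  set π : Γ →* Γ ⧸ N := QuotientGroup.mk' N with hπ
  have hπs : Function.Surjective π := QuotientGroup.mk'_surjective N
  have hπe : ∀ x y : Γ, π x = π y ↔ x⁻¹ * y ∈ N := fun x y => QuotientGroup.eq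
  have hπ1 : ∀ x : Γ, π x = 1 ↔ x ∈ N := fun x => QuotientGroup.eq_one_iff x
  set P : Subgroup (Γ ⧸ N) := C.map π with hPd
  have hPn : P.Normal := Subgroup.Normal.map inferInstance π hπs
  have hP : IsPGroup p P := by
    rintro ⟨x, c, hc, rfl⟩
    obtain ⟨k, hk⟩ := cong_pow hpA ρ (hT.res fun a => hψ a c hc) m
    refine ⟨k, Subtype.ext ?_⟩
    show (π c) ^ p ^ k = 1
    rw [← map_pow, hπ1]
    exact hk
  set Y : Subgroup (Γ ⧸ N) := X.map π with hYd
  have hY : ∀ q : Γ ⧸ N, ∃ y ∈ Y, y⁻¹ * q ∈ P := by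
    intro q
    obtain ⟨q, rfl⟩ := hπs q
    obtain ⟨x, hx, hxq⟩ := hX q
    exact ⟨π x, ⟨x, hx, rfl⟩, x⁻¹ * q, hxq, by rw [map_mul, map_inv]⟩
  by_cases hle : P ≤ Y
  · obtain ⟨x, hx, hxg⟩ := hX g
    obtain ⟨x', hx', hxx⟩ := hle ⟨x⁻¹ * g, hxg, rfl⟩
    refine ⟨x * x', X.mul_mem hx hx', ?_⟩
    have h1 := (hπe _ _).1 hxx
    have e : (x * x')⁻¹ * g = x'⁻¹ * (x⁻¹ * g) := by group
    rw [e]
    exact h1
  · exfalso
    obtain ⟨φ, χ, hadd, ⟨z, hz⟩, hφY, hφe⟩ := eigHom P hP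
      (fun a b => by
        obtain ⟨a, rfl⟩ := hπs a
        obtain ⟨b, rfl⟩ := hπs b
        exact ⟨_, hcomm a b, by simp only [map_mul, map_inv]⟩)
      (fun a => by
        obtain ⟨a, rfl⟩ := hπs a
        exact ⟨_, hexp a, by rw [map_pow]⟩) Y hY hle
    -- the lift
    let q : C → P := fun c => ⟨π c, c, c.2, rfl⟩
    have hq1 : ∀ x y, q (x * y) = q x * q y := fun x y => Subtype.ext (by
      show π ((x * y : C) : Γ) = π x * π y
      push_cast
      rw [map_mul])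
    have hqe : ∀ (g : Γ) (x : C), q (MulAut.conjNormal g x) = MulAut.conjNormal (π g) (q x) := by
      intro g x
      apply Subtype.ext
      rw [MulAut.conjNormal_apply]
      show π ((MulAut.conjNormal g x : C) : Γ) = π g * π x * (π g)⁻¹
      rw [MulAut.conjNormal_apply, map_mul, map_mul, map_inv]
    obtain ⟨z', hz'⟩ : ∃ c : C, q c = z := by
      obtain ⟨z, c, hc, rfl⟩ := z
      exact ⟨⟨c, hc⟩, rfl⟩
    have hφN : ∀ x : C, (x : Γ) ∈ N → φ (q x) = 0 := by
      intro x hx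
      refine hφY _ ?_
      have : ((q x : P) : Γ ⧸ N) = 1 := (hπ1 _).2 hx
      rw [this]
      exact Y.one_mem
    by_cases hD : ∃ a c : Fin n, ∀ g : Γ, χ (π g) = ((ψ a g * (ψ c g)⁻¹ : (ZMod p)ˣ) : ZMod p)
    · obtain ⟨a, c, hD⟩ := hD
      let f : C →* Multiplicative (ZMod p) :=
        MonoidHom.mk' (fun x => Multiplicative.ofAdd (φ (q x))) (fun x y => by
          show Multiplicative.ofAdd (φ (q (x * y))) = _
          rw [hq1, hadd, ofAdd_add])
      have hf : ∀ x, f x = Multiplicative.ofAdd (φ (q x)) := fun _ => rfl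
      have h1 := hdet a c f ⟨m, fun x hx => by rw [hf, hφN x hx, ofAdd_zero]⟩
        (fun x hx => by
          rw [hf, hφY _ ⟨x, hx, rfl⟩, ofAdd_zero])
        (fun g x => by
          rw [hf, hf, hqe, hφe, hD g, ← ofAdd_nsmul, nsmul_eq_mul, ZMod.natCast_zmod_val]) z'
      rw [hf, hz'] at h1
      exact hz (by
        have := congrArg Multiplicative.toAdd h1
        rwa [toAdd_ofAdd, toAdd_one] at this)
    · push Not at hD
      have h1 := kill hpA hT C hψ (fun x => φ (q x)) (fun x y => by rw [hq1, hadd]) m hφN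
        (fun g => χ (π g)) (fun g x => by rw [hqe, hφe]) hD z'
      exact hz (by rw [← hz']; exact h1)

/-- the abstract local-global principle -/
def LG (ρ : Γ →* GL (Fin n) A) (X : Subgroup Γ) : Prop :=
  ∀ S : Subgroup Γ, (∀ x : Γ, (∀ m : ℕ, ∃ δ ∈ S, δ⁻¹ * x ∈ cong ρ m) → x ∈ S) →
    S.relIndex X ≠ 0 → S.FiniteIndex

theorem LG.of_dense {ρ : Γ →* GL (Fin n) A} {X : Subgroup Γ}
    (h : ∀ (m : ℕ) (g : Γ), ∃ δ ∈ X, δ⁻¹ * g ∈ cong ρ m) : LG ρ X := by
  intro S hS hSX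
  refine locglob ρ (N := ⊤) inferInstance hS (fun m g _ => ?_) hSX
  obtain ⟨δ, h1, h2⟩ := h m g
  exact ⟨δ, h1, trivial, h2⟩

variable [IsNoetherianRing A]

/-- **potentially trivial representations have finite image** -/
theorem LG.triv {ρ : Γ →* GL (Fin n) A} {X : Subgroup Γ} (hL : LG ρ X)
    (h : ρ.ker.relIndex X ≠ 0) : (Set.range ρ).Finite := by
  have h1 := hL ρ.ker (ker_of_lim ρ) h
  have h2 : Finite (Γ ⧸ ρ.ker) := Subgroup.finite_quotient_of_finiteIndex
  have h3 : Finite ρ.range := Finite.of_equiv _ (QuotientGroup.quotientKerEquivRange ρ).toEquiv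
  rw [← MonoidHom.coe_range]
  exact Set.toFinite _

/-- **potentially stable subspaces** -/
theorem LG.stab {ρ : Γ →* GL (Fin n) A} {X : Subgroup Γ} (hL : LG ρ X) {E : Type*} [Field E]
    [Algebra A E] (W : Submodule E (Fin n → E))
    (h : (stb ρ W).relIndex X ≠ 0) : ∃ m, cong ρ m ≤ stb ρ W := by
  have h1 := hL (stb ρ W) (fun x hx => stb_of_lim ρ W le_rfl hx) h
  exact cong_le_of_lim ρ (stb ρ W) h1 (fun x hx => stb_of_lim ρ W le_rfl hx)

/-- **trivial action on a subquotient** -/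
theorem LG.fix {ρ : Γ →* GL (Fin n) A} {X : Subgroup Γ} (hL : LG ρ X) {E : Type*} [Field E]
    [Algebra A E] (W W' : Submodule E (Fin n → E))
    (h : (fixq ρ W W').relIndex X ≠ 0) : ∃ m, cong ρ m ≤ fixq ρ W W' := by
  have h1 := hL (fixq ρ W W') (fun x hx => fixq_of_lim ρ W W' hx) h
  exact cong_le_of_lim ρ (fixq ρ W W') h1 (fun x hx => fixq_of_lim ρ W W' hx)

/-- a fixed vector of an irreducible representation -/
theorem LG.vec {ρ : Γ →* GL (Fin n) A} {X : Subgroup Γ} (hL : LG ρ X) {E : Type*} [Field E]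
    [Algebra A E] {v : Fin n → E} (hv : v ≠ 0)
    (hirr : ∀ W : Submodule E (Fin n → E), (∀ g, ∀ w ∈ W, act E ρ g w ∈ W) → W = ⊥ ∨ W = ⊤)
    (h : (fixq ρ (Submodule.span E {v}) ⊥).relIndex X ≠ 0) :
    ∃ m, ∀ g ∈ cong ρ m, ∀ w : Fin n → E, act E ρ g w = w := by
  obtain ⟨m, hm⟩ := hL.fix _ _ h
  refine ⟨m, ?_⟩
  let F : Submodule E (Fin n → E) :=
    { carrier := {w | ∀ g ∈ cong ρ m, act E ρ g w = w}
      add_mem' := fun {a b} ha hb g hg => by rw [map_add, ha g hg, hb g hg]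
      zero_mem' := fun g _ => map_zero _
      smul_mem' := fun c a ha g hg => by rw [map_smul, ha g hg] }
  have hF : F = ⊥ ∨ F = ⊤ := by
    refine hirr F fun g w hw k hk => ?_
    have h1 : g⁻¹ * k * g ∈ cong ρ m := by
      have := (cong_normal ρ m).conj_mem k hk g⁻¹
      rwa [inv_inv] at this
    have h2 := hw _ h1
    have h3 : k * g = g * (g⁻¹ * k * g) := by group
    rw [← act_mul, h3, act_mul, h2]
  rcases hF with hF | hF
  · exfalso
    have : v ∈ F := fun g hg => by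
      have h1 := (hm hg).2 v (Submodule.mem_span_singleton_self v)
      rw [Submodule.mem_bot, sub_eq_zero] at h1
      exact h1
    rw [hF, Submodule.mem_bot] at this
    exact hv this
  · intro g hg w
    have : w ∈ F := by rw [hF]; trivial
    exact this g hg

end Pool.Agent.U172.FE
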