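import Pool.Agent.U172.FM.Cong

/-!
# The filtration of matrices which are triangular modulo an ideal
-/

set_option autoImplicit false
set_option linter.unusedSectionVars false

namespace Pool.Agent.U172.FE

open Matrix

variable {A : Type*} [CommRing A] {n : ℕ} {I : Ideal A}

/-- the condition on the entry `(a, b)` for the step `s` of the filtration -/
def Ent (I : Ideal A) (n s : ℕ) (a b : Fin n) (x : A) : Prop :=
  ∀ k : ℕ, n * k + b < s + a + n → x ∈ I ^ k

/-- the filtration -/
def Fil (I : Ideal A) (s : ℕ) (M : Matrix (Fin n) (Fin n) A) : Prop :=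
  ∀ a b : Fin n, Ent I n s a b (M a b)

lemma Ent.add {s : ℕ} {a b : Fin n} {x y : A} (hx : Ent I n s a b x) (hy : Ent I n s a b y) :
    Ent I n s a b (x + y) := fun k hk => add_mem (hx k hk) (hy k hk)

lemma Ent.neg {s : ℕ} {a b : Fin n} {x : A} (hx : Ent I n s a b x) :
    Ent I n s a b (-x) := fun k hk => neg_mem (hx k hk)

lemma Ent.sub {s : ℕ} {a b : Fin n} {x y : A} (hx : Ent I n s a b x) (hy : Ent I n s a b y) :
    Ent I n s a b (x - y) := fun k hk => sub_mem (hx k hk) (hy k hk)

lemma Ent.mulL {s : ℕ} {a b : Fin n} {x : A} (hx : Ent I n s a b x) (c : A) :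
    Ent I n s a b (c * x) := fun k hk => Ideal.mul_mem_left _ _ (hx k hk)

lemma Ent.mulR {s : ℕ} {a b : Fin n} {x : A} (hx : Ent I n s a b x) (c : A) :
    Ent I n s a b (x * c) := fun k hk => Ideal.mul_mem_right _ _ (hx k hk)

lemma Ent.anti {s t : ℕ} (h : s ≤ t) {a b : Fin n} {x : A} (hx : Ent I n t a b x) :
    Ent I n s a b x := fun k hk => hx k (by omega)

lemma Ent.zero {s : ℕ} {a b : Fin n} : Ent I n s a b 0 := fun k _ => (I ^ k).zero_mem

lemma Ent.sum {ι : Type*} {s : ℕ} {a b : Fin n} (F : Finset ι) (f : ι → A)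
    (h : ∀ i ∈ F, Ent I n s a b (f i)) : Ent I n s a b (∑ i ∈ F, f i) :=
  fun k hk => Ideal.sum_mem _ fun i hi => h i hi k hk

/-- multiplication by an element of the ideal -/
lemma Ent.mulI {s : ℕ} {a b : Fin n} {x c : A} (hx : Ent I n s a b x) (hc : c ∈ I) :
    Ent I n (s + 1) a b (c * x) := by
  intro k hk
  rcases Nat.eq_zero_or_pos k with rfl | hk0
  · rw [pow_zero, Ideal.one_eq_top]
    trivial
  · obtain ⟨j, rfl⟩ : ∃ j, k = j + 1 := ⟨k - 1, by omega⟩
    have hn : 0 < n := a.pos
    have h1 : n * j + b < s + a + n := by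
      have : n * (j + 1) = n * j + n := by ring
      omega
    rw [pow_succ']
    exact Ideal.mul_mem_mul hc (hx j h1)

lemma Ent.mul {s t : ℕ} {a b c : Fin n} {x y : A} (hx : Ent I n s a b x) (hy : Ent I n t b c y) :
    Ent I n (s + t) a c (x * y) := by
  intro k hk
  have hn : 0 < n := a.pos
  -- the best exponents
  set i := (s + a + n - b - 1) / n with hi
  set j := (t + b + n - c - 1) / n with hj
  have hb := b.2
  have hc := c.2
  have h1 : n * i ≤ s + a + n - b - 1 := Nat.mul_div_le _ _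
  have h2 : n * j ≤ t + b + n - c - 1 := Nat.mul_div_le _ _
  have h3 : s + a + n - b - 1 < n * i + n := by
    have := Nat.lt_mul_div_succ (s + a + n - b - 1) hn
    rw [← hi] at this
    linarith [this, (by ring : n * (i + 1) = n * i + n)]
  have h4 : t + b + n - c - 1 < n * j + n := by
    have := Nat.lt_mul_div_succ (t + b + n - c - 1) hn
    rw [← hj] at this
    linarith [this, (by ring : n * (j + 1) = n * j + n)]
  have h5 : k ≤ i + j := by
    by_contra hcon
    push Not at hcon
    have h6 : n * (i + j + 1) ≤ n * k := Nat.mul_le_mul_left n hcon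
    have h7 : n * (i + j + 1) = n * i + n * j + n := by ring
    omega
  refine Ideal.pow_le_pow_right h5 ?_
  rw [pow_add]
  exact Ideal.mul_mem_mul (hx i (by omega)) (hy j (by omega))

lemma Fil.add {s : ℕ} {M N : Matrix (Fin n) (Fin n) A} (hM : Fil I s M) (hN : Fil I s N) :
    Fil I s (M + N) := fun a b => (hM a b).add (hN a b)

lemma Fil.sub {s : ℕ} {M N : Matrix (Fin n) (Fin n) A} (hM : Fil I s M) (hN : Fil I s N) :
    Fil I s (M - N) := fun a b => (hM a b).sub (hN a b)

lemma Fil.neg {s : ℕ} {M : Matrix (Fin n) (Fin n) A} (hM : Fil I s M) :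
    Fil I s (-M) := fun a b => (hM a b).neg

lemma Fil.anti {s t : ℕ} (h : s ≤ t) {M : Matrix (Fin n) (Fin n) A} (hM : Fil I t M) :
    Fil I s M := fun a b => (hM a b).anti h

lemma Fil.mul {s t : ℕ} {M N : Matrix (Fin n) (Fin n) A} (hM : Fil I s M) (hN : Fil I t N) :
    Fil I (s + t) (M * N) := fun a c => by
  rw [Matrix.mul_apply]
  exact Ent.sum _ _ fun b _ => (hM a b).mul (hN b c)

lemma Fil.one : Fil I 0 (1 : Matrix (Fin n) (Fin n) A) := by
  intro a b k hk
  by_cases hab : a = b
  · subst hab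
    have hn : 0 < n := a.pos
    have : k = 0 := by
      by_contra h0
      have : n * 1 ≤ n * k := Nat.mul_le_mul_left n (Nat.one_le_iff_ne_zero.2 h0)
      omega
    subst this
    rw [pow_zero, Ideal.one_eq_top]
    trivial
  · rw [Matrix.one_apply_ne hab]
    exact (I ^ k).zero_mem

lemma Fil.diag (d : Fin n → A) : Fil I 0 (Matrix.diagonal d) := by
  intro a b k hk
  by_cases hab : a = b
  · subst hab
    have hn : 0 < n := a.pos
    have : k = 0 := by
      by_contra h0
      have : n * 1 ≤ n * k := Nat.mul_le_mul_left n (Nat.one_le_iff_ne_zero.2 h0)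
      omega
    subst this
    rw [pow_zero, Ideal.one_eq_top]
    trivial
  · rw [Matrix.diagonal_apply_ne _ hab]
    exact (I ^ k).zero_mem

/-- triangular modulo the ideal, with prescribed diagonal -/
lemma fil_one_of {M : Matrix (Fin n) (Fin n) A} {d : Fin n → A}
    (hlow : ∀ a b : Fin n, b < a → M a b ∈ I) (hd : ∀ a, M a a - d a ∈ I) :
    Fil I 1 (M - Matrix.diagonal d) := by
  intro a b k hk
  have hn : 0 < n := a.pos
  have hk1 : k ≤ 1 := by
    by_contra h0
    push Not at h0
    have : n * 2 ≤ n * k := Nat.mul_le_mul_left n h0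
    have ha := a.2
    omega
  rcases Nat.lt_or_ge b.1 a.1 with hab | hab
  · have hne : a ≠ b := fun h => by rw [h] at hab; exact lt_irrefl _ hab
    rw [Matrix.sub_apply, Matrix.diagonal_apply_ne _ hne, sub_zero]
    have := hlow a b hab
    interval_cases k
    · rw [pow_zero, Ideal.one_eq_top]; trivial
    · rwa [pow_one]
  · rcases Nat.eq_or_lt_of_le hab with h | h
    · have e : a = b := Fin.ext h
      subst e
      rw [Matrix.sub_apply, Matrix.diagonal_apply_eq]
      interval_cases k
      · rw [pow_zero, Ideal.one_eq_top]; trivial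
      · rw [pow_one]; exact hd a
    · have : k = 0 := by
        by_contra h0
        have : n * 1 ≤ n * k := Nat.mul_le_mul_left n (Nat.one_le_iff_ne_zero.2 h0)
        omega
      subst this
      rw [pow_zero, Ideal.one_eq_top]
      trivial

/-- a deep step is contained in a power of the ideal -/
lemma Fil.inI {m : ℕ} {M : Matrix (Fin n) (Fin n) A} (hM : Fil I (n * (m + 1)) M) :
    Pool.Agent.U172.FM.InI (I ^ m) M := by
  intro a b
  refine hM a b m ?_
  have hb := b.2
  have : n * (m + 1) = n * m + n := by ring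
  omega

/-- the elements of a step of the filtration which are in the next one at the positions in `Q` -/
def FilQ (I : Ideal A) (s : ℕ) (Q : Finset (Fin n × Fin n)) (M : Matrix (Fin n) (Fin n) A) : Prop :=
  Fil I s M ∧ ∀ q ∈ Q, Ent I n (s + 1) q.1 q.2 (M q.1 q.2)

lemma FilQ.add {s : ℕ} {Q : Finset (Fin n × Fin n)} {M N : Matrix (Fin n) (Fin n) A}
    (hM : FilQ I s Q M) (hN : FilQ I s Q N) : FilQ I s Q (M + N) :=
  ⟨hM.1.add hN.1, fun q hq => (hM.2 q hq).add (hN.2 q hq)⟩

lemma FilQ.of_fil {s : ℕ} {Q : Finset (Fin n × Fin n)} {M : Matrix (Fin n) (Fin n) A}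
    (hM : Fil I (s + 1) M) : FilQ I s Q M :=
  ⟨hM.anti (Nat.le_succ s), fun q _ => hM q.1 q.2⟩

lemma FilQ.univ {s : ℕ} {M : Matrix (Fin n) (Fin n) A}
    (hM : FilQ I s Finset.univ M) : Fil I (s + 1) M :=
  fun a b => hM.2 (a, b) (Finset.mem_univ _)

/-- powers -/
lemma fil_pow {s : ℕ} (hs : 1 ≤ s) {x : Matrix (Fin n) (Fin n) A} (hx : Fil I s x) (e : ℕ) :
    Fil I (s + 1) ((1 + x) ^ e - 1 - (e : A) • x) := by
  induction e with
  | zero =>
    intro a b
    simp only [pow_zero, sub_self, Nat.cast_zero, zero_smul]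
    exact Ent.zero
  | succ e ih =>
    have e1 : (1 + x) ^ (e + 1) - 1 - ((e + 1 : ℕ) : A) • x =
        ((1 + x) ^ e - 1 - (e : A) • x) * (1 + x) + (e : A) • (x * x) := by
      have e2 : (e : A) • (x * (1 + x)) = (e : A) • x + (e : A) • (x * x) := by
        rw [mul_add, mul_one, smul_add]
      rw [pow_succ, Nat.cast_succ, add_smul, one_smul, sub_mul, sub_mul, one_mul, smul_mul_assoc, e2]
      abel
    rw [e1]
    have h1 : Fil I (s + 1) (((1 + x) ^ e - 1 - (e : A) • x) * (1 + x)) := by
      rw [mul_add, mul_one]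
      exact ih.add ((ih.mul hx).anti (by omega))
    refine h1.add fun a b => ?_
    rw [Matrix.smul_apply, smul_eq_mul]
    exact (((hx.mul hx).anti (by omega : s + 1 ≤ s + s)) a b).mulL _

/-- **one step**: `y` is a conjugate of `x` by a matrix `g` which is triangular modulo `I` with the
diagonal `d` -/
lemma kill_step {s : ℕ} {Q : Finset (Fin n × Fin n)} {x y g : Matrix (Fin n) (Fin n) A}
    {d d' : Fin n → A} (hdd : ∀ a, d a * d' a = 1) (hg : Fil I 1 (g - Matrix.diagonal d))
    (hx : FilQ I s Q x) (hy : Fil I s y) (hconj : y * g = g * x) (q : Fin n × Fin n) (e : ℕ)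
    (he : d q.1 - (e : A) * d q.2 ∈ I) : FilQ I s (insert q Q) (y - (e : A) • x) := by
  have key : Fil I (s + 1) (y * Matrix.diagonal d - Matrix.diagonal d * x) := by
    have e1 : y * Matrix.diagonal d - Matrix.diagonal d * x =
        (g - Matrix.diagonal d) * x - y * (g - Matrix.diagonal d) := by
      rw [sub_mul, mul_sub, hconj]
      abel
    rw [e1]
    have h1 := hg.mul hx.1
    rw [add_comm] at h1
    exact h1.sub (hy.mul hg)
  have key2 : ∀ a c : Fin n, Ent I n (s + 1) a c (y a c * d c - d a * x a c) := by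
    intro a c
    have := key a c
    rwa [Matrix.sub_apply, Matrix.mul_diagonal, Matrix.diagonal_mul] at this
  refine ⟨fun a b => ?_, fun r hr => ?_⟩
  · rw [Matrix.sub_apply, Matrix.smul_apply, smul_eq_mul]
    exact (hy a b).sub ((hx.1 a b).mulL _)
  · rw [Matrix.sub_apply, Matrix.smul_apply, smul_eq_mul]
    obtain ⟨a, c⟩ := r
    rw [Finset.mem_insert] at hr
    have h0 := key2 a c
    have e1 : y a c - (e : A) * x a c =
        (y a c * d c - d a * x a c) * d' c + (d a - (e : A) * d c) * x a c * d' c := by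
      have h2 := hdd c
      linear_combination (-(y a c) + (e : A) * x a c) * h2
    show Ent I n (s + 1) a c (y a c - (e : A) * x a c)
    rw [e1]
    refine (h0.mulR _).add (Ent.mulR ?_ _)
    rcases hr with hr | hr
    · subst hr
      exact (hx.1 a c).mulI he
    · exact (hx.2 _ hr).mulL _

/-- the commutator-like element -/
lemma kill_group {s : ℕ} (hs : 1 ≤ s) {Q : Finset (Fin n × Fin n)} {g h : GL (Fin n) A}
    {d d' : Fin n → A} (hdd : ∀ a, d a * d' a = 1)
    (hg : Fil I 1 ((g : Matrix (Fin n) (Fin n) A) - Matrix.diagonal d))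
    (hg0 : Fil I 0 (g : Matrix (Fin n) (Fin n) A))
    (hg1 : Fil I 0 ((g⁻¹ : GL (Fin n) A) : Matrix (Fin n) (Fin n) A))
    (hh0 : Fil I 1 (((h⁻¹ : GL (Fin n) A) : Matrix (Fin n) (Fin n) A) - 1))
    (hx : FilQ I s Q ((h : Matrix (Fin n) (Fin n) A) - 1)) (q : Fin n × Fin n) (e : ℕ)
    (he : d q.1 - (e : A) * d q.2 ∈ I) :
    FilQ I s (insert q Q)
      (((g * h * g⁻¹ * (h ^ e)⁻¹ : GL (Fin n) A) : Matrix (Fin n) (Fin n) A) - 1) := by
  set x : Matrix (Fin n) (Fin n) A := (h : Matrix (Fin n) (Fin n) A) - 1 with hxd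
  set y : Matrix (Fin n) (Fin n) A :=
    (g : Matrix (Fin n) (Fin n) A) * x * ((g⁻¹ : GL (Fin n) A) : Matrix (Fin n) (Fin n) A) with hyd
  have hgg : ((g⁻¹ : GL (Fin n) A) : Matrix (Fin n) (Fin n) A) * (g : Matrix (Fin n) (Fin n) A) = 1 := by
    rw [← Units.val_mul, inv_mul_cancel, Units.val_one]
  have hgg' : (g : Matrix (Fin n) (Fin n) A) * ((g⁻¹ : GL (Fin n) A) : Matrix (Fin n) (Fin n) A) = 1 := by
    rw [← Units.val_mul, mul_inv_cancel, Units.val_one]
  have hy : Fil I s y := by
    have := (hg0.mul hx.1).mul hg1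
    rwa [zero_add, add_zero] at this
  have hconj : y * g = g * x := by
    rw [hyd, mul_assoc, hgg, mul_one]
  have h1 := kill_step hdd hg hx hy hconj q e he
  -- the power
  set u : Matrix (Fin n) (Fin n) A := ((h ^ e : GL (Fin n) A) : Matrix (Fin n) (Fin n) A) with hu
  set u' : Matrix (Fin n) (Fin n) A := (((h ^ e)⁻¹ : GL (Fin n) A) : Matrix (Fin n) (Fin n) A) with hu'
  have huu : u * u' = 1 := by rw [hu, hu', ← Units.val_mul, mul_inv_cancel, Units.val_one]
  have h2 : Fil I (s + 1) (u - 1 - (e : A) • x) := by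
    have := fil_pow hs hx.1 e
    have e1 : (1 + x) ^ e = u := by
      rw [hu, Units.val_pow_eq_pow_val, hxd]
      congr 1
      abel
    rwa [e1] at this
  have h3 : FilQ I s (insert q Q) (y - (u - 1)) := by
    have e1 : y - (u - 1) = (y - (e : A) • x) + -(u - 1 - (e : A) • x) := by abel
    rw [e1]
    exact h1.add (FilQ.of_fil h2.neg)
  have h4 : Fil I 1 (u' - 1) := by
    have key : ∀ k : ℕ, Fil I 1 (((h⁻¹ : GL (Fin n) A) : Matrix (Fin n) (Fin n) A) ^ k - 1) := by
      intro k
      induction k with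
      | zero => rw [pow_zero, sub_self]; exact fun a b => Ent.zero
      | succ k ih =>
        set z := ((h⁻¹ : GL (Fin n) A) : Matrix (Fin n) (Fin n) A) with hz
        have e1 : z ^ (k + 1) - 1 = (z ^ k - 1) + (z ^ k - 1) * (z - 1) + (z - 1) := by
          rw [pow_succ, sub_mul, mul_sub, one_mul, mul_one]
          abel
        rw [e1]
        exact (ih.add ((ih.mul hh0).anti (by omega))).add hh0
    have := key e
    rwa [← Units.val_pow_eq_pow_val, inv_pow] at this
  have e1 : (((g * h * g⁻¹ * (h ^ e)⁻¹ : GL (Fin n) A) : Matrix (Fin n) (Fin n) A) - 1) =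
      (y - (u - 1)) + (y - (u - 1)) * (u' - 1) := by
    have e2 : ((g * h * g⁻¹ * (h ^ e)⁻¹ : GL (Fin n) A) : Matrix (Fin n) (Fin n) A) = (1 + y) * u' := by
      rw [Units.val_mul, Units.val_mul, Units.val_mul, ← hu', hyd, hxd]
      congr 1
      rw [mul_sub, mul_one, sub_mul, hgg']
      abel
    rw [e2, mul_sub, mul_one, sub_mul, sub_mul, huu, add_mul, one_mul]
    abel
  rw [e1]
  refine h3.add (FilQ.of_fil ?_)
  exact (h3.1.mul h4)

end Pool.Agent.U172.FE
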