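import Pool.Agent.U172.FE.Fil

/-!
# Equivariant homomorphisms whose character is not a quotient of residual characters vanish
-/

set_option autoImplicit false
set_option linter.unusedSectionVars false

namespace Pool.Agent.U172.FE

open IsLocalRing Matrix Pool.Agent.U172.FM

variable {A : Type*} [CommRing A] [IsLocalRing A] {n : ℕ} {p : ℕ} [hp : Fact p.Prime]
variable {Γ : Type*} [Group Γ]

/-- the representation is triangular modulo the maximal ideal, with the characters `ψ` on the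
diagonal -/
structure Tri (p : ℕ) [Fact p.Prime] (ψ : Fin n → Γ →* (ZMod p)ˣ) (ρ : Γ →* GL (Fin n) A) : Prop where
  low : ∀ (g : Γ) (a b : Fin n), b < a → (ρ g : Matrix (Fin n) (Fin n) A) a b ∈ maximalIdeal A
  diag : ∀ (g : Γ) (a : Fin n), (ρ g : Matrix (Fin n) (Fin n) A) a a -
    ((((ψ a g : (ZMod p)ˣ) : ZMod p).val : ℕ) : A) ∈ maximalIdeal A

/-- natural numbers which are congruent modulo `p` -/
lemma cast_sub_mem (hpA : (p : A) ∈ maximalIdeal A) {x y : ℕ} (h : (x : ZMod p) = (y : ZMod p)) :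
    (x : A) - (y : A) ∈ maximalIdeal A := by
  have h1 := (ZMod.natCast_eq_natCast_iff x y p).1 h
  have h2 := (Nat.modEq_iff_dvd.1 h1)
  obtain ⟨t, ht⟩ := h2
  have h3 : (y : A) - (x : A) = (p : A) * (t : A) := by
    have := congrArg (fun z : ℤ => (z : A)) ht
    push_cast at this
    exact this
  have h4 : (x : A) - (y : A) = -((p : A) * (t : A)) := by rw [← h3]; ring
  rw [h4]
  exact neg_mem (Ideal.mul_mem_right _ _ hpA)

/-- units of `ℤ/p` lift to units -/
lemma val_unit (hpA : (p : A) ∈ maximalIdeal A) (u : (ZMod p)ˣ) :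
    ∃ d' : A, (((u : ZMod p).val : ℕ) : A) * d' = 1 := by
  have h1 : IsUnit ((((u : ZMod p).val : ℕ) : A)) := by
    by_contra hcon
    have h2 : ((((u : ZMod p).val : ℕ) : A)) ∈ maximalIdeal A := (mem_maximalIdeal _).2 hcon
    -- Bezout
    have hcop : Nat.Coprime (u : ZMod p).val p := ZMod.val_coe_unit_coprime u
    have h3 := Nat.isCoprime_iff_coprime.2 hcop
    obtain ⟨r, s, hrs⟩ := h3
    have h4 : (1 : A) = (r : A) * (((u : ZMod p).val : ℕ) : A) + (s : A) * (p : A) := by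
      have := congrArg (fun z : ℤ => (z : A)) hrs
      push_cast at this
      exact this.symm
    have h5 : (1 : A) ∈ maximalIdeal A := by
      rw [h4]
      exact add_mem (Ideal.mul_mem_left _ _ h2) (Ideal.mul_mem_left _ _ hpA)
    exact (Ideal.ne_top_iff_one _).1 (Ideal.IsPrime.ne_top inferInstance) h5
  exact h1.exists_right_inv

lemma Tri.fil {ψ : Fin n → Γ →* (ZMod p)ˣ} {ρ : Γ →* GL (Fin n) A} (h : Tri p ψ ρ) (g : Γ) :
    Fil (maximalIdeal A) 1 ((ρ g : Matrix (Fin n) (Fin n) A) -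
      Matrix.diagonal fun a => ((((ψ a g : (ZMod p)ˣ) : ZMod p).val : ℕ) : A)) :=
  fil_one_of (h.low g) (h.diag g)

lemma Tri.fil0 {ψ : Fin n → Γ →* (ZMod p)ˣ} {ρ : Γ →* GL (Fin n) A} (h : Tri p ψ ρ) (g : Γ) :
    Fil (maximalIdeal A) 0 (ρ g : Matrix (Fin n) (Fin n) A) := by
  have h1 := ((h.fil g).anti (Nat.zero_le 1)).add (Fil.diag (I := maximalIdeal A)
    fun a => ((((ψ a g : (ZMod p)ˣ) : ZMod p).val : ℕ) : A))
  rwa [sub_add_cancel] at h1

lemma Tri.fil1 {ψ : Fin n → Γ →* (ZMod p)ˣ} {ρ : Γ →* GL (Fin n) A} (h : Tri p ψ ρ) {g : Γ}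
    (hg : ∀ a, ψ a g = 1) : Fil (maximalIdeal A) 1 ((ρ g : Matrix (Fin n) (Fin n) A) - 1) := by
  have h1 := h.fil g
  have h2 : (Matrix.diagonal fun a => ((((ψ a g : (ZMod p)ˣ) : ZMod p).val : ℕ) : A)) = 1 := by
    rw [← Matrix.diagonal_one]
    congr 1
    funext a
    rw [hg a, Units.val_one, ZMod.val_one, Nat.cast_one]
  rwa [h2] at h1

/-- residually unipotent elements -/
lemma Tri.res {ψ : Fin n → Γ →* (ZMod p)ˣ} {ρ : Γ →* GL (Fin n) A} (h : Tri p ψ ρ) {g : Γ}
    (hg : ∀ a, ψ a g = 1) :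
    ∃ N : ℕ, InI (maximalIdeal A) (((ρ g : Matrix (Fin n) (Fin n) A) - 1) ^ N) := by
  refine ⟨n * (1 + 1), ?_⟩
  have key : ∀ k : ℕ, Fil (maximalIdeal A) k (((ρ g : Matrix (Fin n) (Fin n) A) - 1) ^ k) := by
    intro k
    induction k with
    | zero => rw [pow_zero]; exact Fil.one
    | succ k ih => rw [pow_succ]; exact ih.mul (h.fil1 hg)
  have h1 := (key (n * (1 + 1))).inI
  rwa [pow_one] at h1

/-- **the vanishing theorem** -/
theorem kill (hpA : (p : A) ∈ maximalIdeal A) {ψ : Fin n → Γ →* (ZMod p)ˣ} {ρ : Γ →* GL (Fin n) A}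
    (hT : Tri p ψ ρ) (C : Subgroup Γ) [C.Normal] (hψ : ∀ a, ∀ c ∈ C, ψ a c = 1)
    (φ : C → ZMod p) (hadd : ∀ x y, φ (x * y) = φ x + φ y) (m : ℕ)
    (hm : ∀ x : C, (x : Γ) ∈ cong ρ m → φ x = 0) (χ : Γ → ZMod p)
    (heq : ∀ (g : Γ) (x : C), φ (MulAut.conjNormal g x) = χ g * φ x)
    (hne : ∀ a c : Fin n, ∃ g : Γ, χ g ≠ ((ψ a g * (ψ c g)⁻¹ : (ZMod p)ˣ) : ZMod p)) (x : C) :
    φ x = 0 := by
  classical
  have h1' : φ 1 = 0 := by
    have := hadd 1 1
    rw [mul_one] at this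
    exact left_eq_add.1 this
  have hinv : ∀ x : C, φ x⁻¹ = -φ x := by
    intro x
    have := hadd x x⁻¹
    rw [mul_inv_cancel, h1'] at this
    exact (neg_eq_of_add_eq_zero_right this.symm).symm
  have hpow : ∀ (x : C) (k : ℕ), φ (x ^ k) = (k : ZMod p) * φ x := by
    intro x k
    induction k with
    | zero => rw [pow_zero, h1', Nat.cast_zero, zero_mul]
    | succ k ih => rw [pow_succ, hadd, ih, Nat.cast_succ, add_mul, one_mul]
  set P : ℕ → Finset (Fin n × Fin n) → Prop := fun s Q =>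
    ∀ x : C, FilQ (maximalIdeal A) s Q ((ρ (x : Γ) : Matrix (Fin n) (Fin n) A) - 1) → φ x = 0 with hP
  -- one position
  have step : ∀ s, 1 ≤ s → ∀ Q q, P s (insert q Q) → P s Q := by
    intro s hs Q q hq x hx
    obtain ⟨g, hg⟩ := hne q.1 q.2
    set e : ℕ := ((ψ q.1 g * (ψ q.2 g)⁻¹ : (ZMod p)ˣ) : ZMod p).val with he
    choose d' hd' using fun a => val_unit (A := A) hpA (ψ a g)
    have hk := kill_group (I := maximalIdeal A) hs (Q := Q) (g := ρ g) (h := ρ (x : Γ))
      (d := fun a => ((((ψ a g : (ZMod p)ˣ) : ZMod p).val : ℕ) : A)) (d' := d')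
      hd' (hT.fil g) (hT.fil0 g) (by rw [← map_inv]; exact hT.fil0 g⁻¹)
      (by
        rw [← map_inv]
        exact hT.fil1 fun a => hψ a _ (C.inv_mem x.2)) hx q e (by
        show ((((ψ q.1 g : (ZMod p)ˣ) : ZMod p).val : ℕ) : A) -
          (e : A) * ((((ψ q.2 g : (ZMod p)ˣ) : ZMod p).val : ℕ) : A) ∈ maximalIdeal A
        rw [← Nat.cast_mul]
        refine cast_sub_mem hpA ?_
        rw [Nat.cast_mul, he, ZMod.natCast_zmod_val, ZMod.natCast_zmod_val, ZMod.natCast_zmod_val,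
          ← Units.val_mul, inv_mul_cancel_right])
    have hy : φ (MulAut.conjNormal g x * (x ^ e)⁻¹) = 0 := by
      refine hq _ ?_
      have e1 : ((MulAut.conjNormal g x * (x ^ e)⁻¹ : C) : Γ) = g * x * g⁻¹ * ((x : Γ) ^ e)⁻¹ := by
        push_cast
        rw [MulAut.conjNormal_apply]
      rw [e1, map_mul, map_mul, map_mul, map_inv, map_inv, map_pow]
      exact hk
    rw [hadd, hinv, hpow, heq, ← sub_eq_add_neg, ← sub_mul, he, ZMod.natCast_zmod_val] at hy
    rcases mul_eq_zero.1 hy with h | h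
    · exact absurd (sub_eq_zero.1 h) hg
    · exact h
  have all : ∀ s, 1 ≤ s → P s Finset.univ → ∀ R : Finset (Fin n × Fin n), P s (Finset.univ \ R) := by
    intro s hs h0 R
    induction R using Finset.induction_on with
    | empty => rwa [Finset.sdiff_empty]
    | insert q R hqR ih =>
      refine step s hs _ q ?_
      have e1 : insert q (Finset.univ \ insert q R) = Finset.univ \ R := by
        rw [Finset.sdiff_insert, Finset.insert_erase]
        exact Finset.mem_sdiff.2 ⟨Finset.mem_univ _, hqR⟩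
      rwa [e1]
  have next : ∀ s, 1 ≤ s → P (s + 1) ∅ → P s ∅ := by
    intro s hs h
    have h1 : P s Finset.univ := fun x hx => h x ⟨hx.univ, fun q hq => absurd hq (Finset.notMem_empty q)⟩
    have h2 := all s hs h1 Finset.univ
    rwa [Finset.sdiff_self] at h2
  have base : P (n * (m + 1) + 1) ∅ := by
    intro x hx
    refine hm x (mem_cong.2 ?_)
    exact (hx.1.anti (Nat.le_succ _)).inI
  have down : ∀ j : ℕ, j ≤ n * (m + 1) → P (n * (m + 1) + 1 - j) ∅ := by
    intro j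
    induction j with
    | zero => intro _; exact base
    | succ j ih =>
      intro hj
      refine next _ (by omega) ?_
      have e1 : n * (m + 1) + 1 - (j + 1) + 1 = n * (m + 1) + 1 - j := by omega
      rw [e1]
      exact ih (by omega)
  have h1 := down _ le_rfl
  rw [Nat.add_sub_cancel_left] at h1
  exact h1 x ⟨hT.fil1 fun a => hψ a _ x.2, fun q hq => absurd hq (Finset.notMem_empty q)⟩

end Pool.Agent.U172.FE
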